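import Mathlib

set_option autoImplicit false

open MeasureTheory Matrix

namespace Pool.Agent.Results.MP_4d58d7_an.SketchSolve

/-- Squared Euclidean norm of a vector. -/
def sqNorm {m : ℕ} (x : Fin m → ℝ) : ℝ := ∑ i, x i ^ 2

/-- Frobenius norm of a matrix. -/
noncomputable def frob {m p : ℕ} (M : Matrix (Fin m) (Fin p) ℝ) : ℝ :=
  Real.sqrt (∑ i, ∑ j, M i j ^ 2)

/-- `P` is the Moore-Penrose pseudoinverse of `M` (the four Penrose equations). -/
def IsPinv {m p : ℕ} (M : Matrix (Fin m) (Fin p) ℝ) (P : Matrix (Fin p) (Fin m) ℝ) : Prop :=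
  M * P * M = M ∧ P * M * P = P ∧ (M * P)ᵀ = M * P ∧ (P * M)ᵀ = P * M

/-- Every real matrix has a Moore-Penrose pseudoinverse. -/
theorem exists_isPinv {m p : ℕ} (M : Matrix (Fin m) (Fin p) ℝ) : ∃ P, IsPinv M P := by
  classical
  have hG : (Mᵀ * M).IsHermitian := by
    rw [Matrix.IsHermitian, Matrix.conjTranspose_eq_transpose_of_trivial]
    simp [Matrix.transpose_mul]
  obtain ⟨U, D, hU, hU', hGU⟩ : ∃ (U : Matrix (Fin p) (Fin p) ℝ) (D : Fin p → ℝ),
      Uᵀ * U = 1 ∧ U * Uᵀ = 1 ∧ Mᵀ * M = U * diagonal D * Uᵀ := by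
    refine ⟨hG.eigenvectorUnitary, hG.eigenvalues, ?_, ?_, ?_⟩
    · have := Unitary.coe_star_mul_self hG.eigenvectorUnitary
      rwa [Matrix.star_eq_conjTranspose, Matrix.conjTranspose_eq_transpose_of_trivial] at this
    · have := Unitary.coe_mul_star_self hG.eigenvectorUnitary
      rwa [Unitary.coe_star, Matrix.star_eq_conjTranspose,
        Matrix.conjTranspose_eq_transpose_of_trivial] at this
    · have := hG.spectral_theorem
      rw [Unitary.conjStarAlgAut_apply, Matrix.star_eq_conjTranspose,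
        Matrix.conjTranspose_eq_transpose_of_trivial] at this
      simpa using this
  set G := Mᵀ * M with hGdef
  set g := U * diagonal (fun i => (D i)⁻¹) * Uᵀ with hg
  have hgT : gᵀ = g := by
    simp [hg, Matrix.transpose_mul, Matrix.mul_assoc]
  have hGT : Gᵀ = G := by simp [hGdef, Matrix.transpose_mul]
  have key : ∀ a b : Fin p → ℝ, (U * diagonal a * Uᵀ) * (U * diagonal b * Uᵀ)
      = U * diagonal (fun i => a i * b i) * Uᵀ := by
    intro a b
    calc (U * diagonal a * Uᵀ) * (U * diagonal b * Uᵀ)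
        = U * diagonal a * (Uᵀ * U) * diagonal b * Uᵀ := by simp only [Matrix.mul_assoc]
      _ = U * (diagonal a * diagonal b) * Uᵀ := by rw [hU]; simp only [Matrix.mul_assoc, Matrix.mul_one]
      _ = _ := by rw [Matrix.diagonal_mul_diagonal]
  have hgG : g * G = G * g := by
    rw [hGU, hg, key, key]; simp [mul_comm]
  have hgGg : g * G * g = g := by
    rw [hGU, hg, key, key]
    congr 3
    ext i
    by_cases h : D i = 0
    · simp [h]
    · field_simp
  have hGgG : G * (g * G) = G := by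
    rw [hGU, hg, key, key]
    congr 3
    ext i
    by_cases h : D i = 0
    · simp [h]
    · field_simp
  have hM : M * (g * G) = M := by
    have h0 : (M * (g * G) - M)ᴴ * (M * (g * G) - M) = 0 := by
      rw [Matrix.conjTranspose_eq_transpose_of_trivial]
      have : (M * (g * G) - M)ᵀ * (M * (g * G) - M)
          = (g * G)ᵀ * (G * (g * G)) - (g * G)ᵀ * G - G * (g * G) + G := by
        rw [Matrix.transpose_sub, Matrix.transpose_mul, Matrix.sub_mul, Matrix.mul_sub,
          Matrix.mul_sub]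
        simp only [hGdef, Matrix.mul_assoc]
        abel
      rw [this, hGgG]; simp
    exact sub_eq_zero.mp (Matrix.conjTranspose_mul_self_eq_zero.mp h0)
  refine ⟨g * Mᵀ, ?_, ?_, ?_, ?_⟩
  · rw [Matrix.mul_assoc, Matrix.mul_assoc]; exact hM
  · rw [← Matrix.mul_assoc, Matrix.mul_assoc g, ← hGdef, hgGg]
  · rw [Matrix.transpose_mul, Matrix.transpose_mul, hgT, Matrix.transpose_transpose,
      Matrix.mul_assoc]
  · rw [Matrix.mul_assoc, ← hGdef, Matrix.transpose_mul, hgT, hGT, hgG]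

/-- The Moore-Penrose pseudoinverse is unique. -/
theorem IsPinv.unique {m p : ℕ} {M : Matrix (Fin m) (Fin p) ℝ} {P Q : Matrix (Fin p) (Fin m) ℝ}
    (hP : IsPinv M P) (hQ : IsPinv M Q) : P = Q := by
  obtain ⟨p1, p2, p3, p4⟩ := hP
  obtain ⟨q1, q2, q3, q4⟩ := hQ
  have e1 : M * P = M * Q := by
    calc M * P = (M * P)ᵀ := p3.symm
      _ = (M * Q * M * P)ᵀ := by rw [q1]
      _ = ((M * Q) * (M * P))ᵀ := by simp only [Matrix.mul_assoc]
      _ = (M * P) * (M * Q) := by rw [Matrix.transpose_mul, p3, q3]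
      _ = M * P * M * Q := by simp only [Matrix.mul_assoc]
      _ = M * Q := by rw [p1]
  have e2 : P * M = Q * M := by
    calc P * M = (P * M)ᵀ := p4.symm
      _ = (P * (M * Q * M))ᵀ := by rw [q1]
      _ = ((P * M) * (Q * M))ᵀ := by simp only [Matrix.mul_assoc]
      _ = (Q * M) * (P * M) := by rw [Matrix.transpose_mul, p4, q4]
      _ = Q * (M * P * M) := by simp only [Matrix.mul_assoc]
      _ = Q * M := by rw [p1]
  calc P = P * M * P := p2.symm
    _ = Q * (M * P) := by rw [e2, Matrix.mul_assoc]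
    _ = Q * M * Q := by rw [e1, Matrix.mul_assoc]
    _ = Q := q2

/-- The Moore-Penrose pseudoinverse. -/
noncomputable def pinv {m p : ℕ} (M : Matrix (Fin m) (Fin p) ℝ) : Matrix (Fin p) (Fin m) ℝ :=
  Classical.choose (exists_isPinv M)

theorem pinv_spec {m p : ℕ} (M : Matrix (Fin m) (Fin p) ℝ) : IsPinv M (pinv M) :=
  Classical.choose_spec (exists_isPinv M)

/-- `Om` is an oblivious subspace injection of dimension `r` with injectivity `al` and failure
probability `de`, over the probability space `(S, P)`. -/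
structure IsOSI {S : Type} [MeasurableSpace S] (P : Measure S) {n k : ℕ}
    (Om : S → Matrix (Fin n) (Fin k) ℝ) (r : ℕ) (al de : ℝ) : Prop where
  /-- `Om` is a random matrix. -/
  measurable : ∀ i j, Measurable fun s => Om s i j
  integrable : ∀ x : Fin n → ℝ, Integrable (fun s => sqNorm ((Om s)ᵀ *ᵥ x)) P
  /-- Isotropy. -/
  isotropy : ∀ x : Fin n → ℝ, ∫ s, sqNorm ((Om s)ᵀ *ᵥ x) ∂P = sqNorm x
  /-- Injectivity on each fixed subspace of dimension `r`. -/
  injectivity : ∀ V : Submodule ℝ (Fin n → ℝ), Module.finrank ℝ V = r →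
    1 - de ≤ P.real {s | ∀ x ∈ V, al * sqNorm x ≤ sqNorm ((Om s)ᵀ *ᵥ x)}

/-- The least-squares optimum `min_X ‖A X - B‖_F`. -/
noncomputable def opt {n d p : ℕ} (A : Matrix (Fin n) (Fin d) ℝ) (B : Matrix (Fin n) (Fin p) ℝ) :
    ℝ := ⨅ X : Matrix (Fin d) (Fin p) ℝ, frob (A * X - B)

/-- The sketch-and-solve estimate `(Ωᵀ A)⁺ Ωᵀ B`. -/
noncomputable def sketchSolve {n k d p : ℕ} (Om : Matrix (Fin n) (Fin k) ℝ)
    (A : Matrix (Fin n) (Fin d) ℝ) (B : Matrix (Fin n) (Fin p) ℝ) : Matrix (Fin d) (Fin p) ℝ :=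
  pinv (Omᵀ * A) * (Omᵀ * B)

section measure

variable (de : ℝ)

/-- Weights on a three point space: `de` at `0`, and `(1 - de) / 2` at `1` and at `2`. -/
noncomputable def wt (i : Fin 3) : ℝ := ![de, (1 - de) / 2, (1 - de) / 2] i

noncomputable def mu : Measure (Fin 3) := ∑ i, ENNReal.ofReal (wt de i) • Measure.dirac i

variable {de}

theorem wt_nonneg (h0 : 0 < de) (h1 : de < 1) (i : Fin 3) : 0 ≤ wt de i := by
  fin_cases i <;> simp [wt] <;> linarith

theorem mu_real (h0 : 0 < de) (h1 : de < 1) (s : Set (Fin 3)) [DecidablePred (· ∈ s)] :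
    (mu de).real s = ∑ i, if i ∈ s then wt de i else 0 := by
  rw [Measure.real, mu, Measure.finsetSum_apply, ENNReal.toReal_sum]
  · refine Finset.sum_congr rfl fun i _ => ?_
    by_cases h : i ∈ s
    · simp [h, wt_nonneg h0 h1]
    · simp [h]
  · intro i _
    by_cases h : i ∈ s
    · simp [h]
    · simp [h]

theorem mu_prob (h0 : 0 < de) (h1 : de < 1) : IsProbabilityMeasure (mu de) := by
  refine ⟨?_⟩
  classical
  have h := mu_real h0 h1 Set.univ
  simp only [Set.mem_univ, if_true, Fin.sum_univ_three, wt] at h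
  simp at h
  have h' : (mu de).real Set.univ = 1 := by rw [h]; ring
  rwa [Measure.real, ENNReal.toReal_eq_one_iff] at h'

theorem mu_integral (h0 : 0 < de) (h1 : de < 1) (f : Fin 3 → ℝ) :
    ∫ s, f s ∂(mu de) = ∑ i, wt de i * f i := by
  rw [mu, integral_finsetSum_measure]
  · refine Finset.sum_congr rfl fun i _ => ?_
    rw [integral_smul_measure, integral_dirac, ENNReal.toReal_ofReal (wt_nonneg h0 h1 i),
      smul_eq_mul]
  · intro i _
    exact (integrable_dirac (by simp)).smul_measure (by simp)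

theorem mu_integrable (f : Fin 3 → ℝ) : Integrable f (mu de) := by
  rw [mu, integrable_finsetSum_measure]
  intro i _
  exact (integrable_dirac (by simp)).smul_measure (by simp)

end measure

/-- The random matrix: `0` at the point `0`, and the rows `(√(1-ε), 0, √z)`, `(0, √(1-ε), ±√z)`
at the points `1` and `2`. -/
noncomputable def om (e z : ℝ) (s : Fin 3) : Matrix (Fin 2) (Fin 3) ℝ :=
  ![0, !![√(1 - e), 0, √z; 0, √(1 - e), √z], !![√(1 - e), 0, √z; 0, √(1 - e), -√z]] s

theorem om_sq0 (e z : ℝ) (x : Fin 2 → ℝ) : sqNorm ((om e z 0)ᵀ *ᵥ x) = 0 := by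
  simp [om, sqNorm]

theorem om_sq1 {e z : ℝ} (he : e < 1) (hz : 0 < z) (x : Fin 2 → ℝ) :
    sqNorm ((om e z 1)ᵀ *ᵥ x) = (1 - e) * sqNorm x + z * (x 0 + x 1) ^ 2 := by
  have h1 : √(1 - e) ^ 2 = 1 - e := Real.sq_sqrt (by linarith)
  have h2 : √z ^ 2 = z := Real.sq_sqrt hz.le
  simp [om, sqNorm, Matrix.mulVec, dotProduct, Fin.sum_univ_succ]
  linear_combination (x 0 ^ 2 + x 1 ^ 2) * h1 + (x 0 + x 1) ^ 2 * h2

theorem om_sq2 {e z : ℝ} (he : e < 1) (hz : 0 < z) (x : Fin 2 → ℝ) :
    sqNorm ((om e z 2)ᵀ *ᵥ x) = (1 - e) * sqNorm x + z * (x 0 - x 1) ^ 2 := by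
  have h1 : √(1 - e) ^ 2 = 1 - e := Real.sq_sqrt (by linarith)
  have h2 : √z ^ 2 = z := Real.sq_sqrt hz.le
  simp [om, sqNorm, Matrix.mulVec, dotProduct, Fin.sum_univ_succ]
  linear_combination (x 0 ^ 2 + x 1 ^ 2) * h1 + (x 0 - x 1) ^ 2 * h2

theorem om_osi {e z de : ℝ} (he : e < 1) (hz : 0 < z) (h0 : 0 < de) (h1 : de < 1)
    (hzd : (1 - de) * (1 - e + z) = 1) (r : ℕ) : IsOSI (mu de) (om e z) r (1 - e) de := by
  refine ⟨fun i j => measurable_of_finite _, fun x => mu_integrable _, fun x => ?_, fun V _ => ?_⟩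
  · rw [mu_integral h0 h1, Fin.sum_univ_three, om_sq0, om_sq1 he hz, om_sq2 he hz]
    simp [wt, sqNorm]
    linear_combination (x 0 ^ 2 + x 1 ^ 2) * hzd
  · classical
    have := mu_prob h0 h1
    have hsub : ({1, 2} : Set (Fin 3)) ⊆
        {s | ∀ x ∈ V, (1 - e) * sqNorm x ≤ sqNorm ((om e z s)ᵀ *ᵥ x)} := by
      intro s hs x _
      rcases hs with rfl | hs
      · rw [om_sq1 he hz]; nlinarith [mul_nonneg hz.le (sq_nonneg (x 0 + x 1))]
      · rw [Set.mem_singleton_iff] at hs
        subst hs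
        rw [om_sq2 he hz]; nlinarith [mul_nonneg hz.le (sq_nonneg (x 0 - x 1))]
    refine le_trans (le_of_eq ?_) (measureReal_mono hsub)
    rw [mu_real h0 h1, Fin.sum_univ_three]
    simp [wt]

/-- The design matrix and the right hand side. -/
def AA : Matrix (Fin 2) (Fin 1) ℝ := !![1; 0]
def BB : Matrix (Fin 2) (Fin 1) ℝ := !![1; 1]

theorem frob_AB (X : Matrix (Fin 1) (Fin 1) ℝ) :
    frob (AA * X - BB) = √((X 0 0 - 1) ^ 2 + 1) := by
  simp [frob, AA, BB, Fin.sum_univ_succ, Matrix.vecMul, dotProduct]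

theorem opt_AB : opt AA BB = 1 := by
  refine le_antisymm ?_ ?_
  · refine (ciInf_le ⟨0, ?_⟩ (!![1] : Matrix (Fin 1) (Fin 1) ℝ)).trans ?_
    · rintro _ ⟨X, rfl⟩
      exact Real.sqrt_nonneg _
    · rw [frob_AB]; simp
  · refine le_ciInf fun X => ?_
    rw [frob_AB]
    rw [Real.one_le_sqrt]
    nlinarith [sq_nonneg (X 0 0 - 1)]

theorem AA_rank : AA.rank = 1 := by
  refine le_antisymm ((Matrix.rank_le_width AA)) ?_
  have h : AAᵀ * AA = (1 : Matrix (Fin 1) (Fin 1) ℝ) := by
    ext i j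
    fin_cases i; fin_cases j
    simp [AA, Matrix.mul_apply, Fin.sum_univ_succ]
  have h2 := Matrix.rank_mul_le_right AAᵀ AA
  rw [h, Matrix.rank_one] at h2
  simpa using h2

theorem pinv_zero {m p : ℕ} : pinv (0 : Matrix (Fin m) (Fin p) ℝ) = 0 :=
  (pinv_spec _).unique ⟨by simp, by simp, by simp, by simp⟩

theorem pinv_col {a b : ℝ} (h : a ^ 2 + b ^ 2 ≠ 0) :
    pinv (!![a; 0; b] : Matrix (Fin 3) (Fin 1) ℝ)
      = !![a / (a ^ 2 + b ^ 2), 0, b / (a ^ 2 + b ^ 2)] := by
  refine (pinv_spec _).unique ⟨?_, ?_, ?_, ?_⟩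
  all_goals
    ext i j
    fin_cases i <;> fin_cases j <;>
      simp [Matrix.mul_apply, Fin.sum_univ_succ] <;> field_simp

theorem solve0 (e z : ℝ) : sketchSolve (om e z 0) AA BB = 0 := by
  simp [sketchSolve, om, pinv_zero]

theorem solve1 {e z : ℝ} (he : e < 1) (hz : 0 < z) :
    sketchSolve (om e z 1) AA BB 0 0 = 1 + z / (1 - e + z) := by
  have h1 : √(1 - e) ^ 2 = 1 - e := Real.sq_sqrt (by linarith)
  have h2 : √z ^ 2 = z := Real.sq_sqrt hz.le
  have h3 : 1 - e + z ≠ 0 := by linarith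
  have hA : (om e z 1)ᵀ * AA = !![√(1 - e); 0; √z] := by
    ext i j
    fin_cases i <;> fin_cases j <;> simp [om, AA, Matrix.mul_apply, Fin.sum_univ_succ]
  have hB : (om e z 1)ᵀ * BB = !![√(1 - e); √(1 - e); 2 * √z] := by
    ext i j
    fin_cases i <;> fin_cases j <;> simp [om, BB, Matrix.mul_apply, Fin.sum_univ_succ]
    ring
  rw [sketchSolve, hA, hB, pinv_col (by rw [h1, h2]; exact h3), h1, h2]
  simp [Matrix.mul_apply, Fin.sum_univ_succ]
  field_simp
  linear_combination h1 + 2 * h2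

theorem solve2 {e z : ℝ} (he : e < 1) (hz : 0 < z) :
    sketchSolve (om e z 2) AA BB 0 0 = 1 - z / (1 - e + z) := by
  have h1 : √(1 - e) ^ 2 = 1 - e := Real.sq_sqrt (by linarith)
  have h2 : √z ^ 2 = z := Real.sq_sqrt hz.le
  have h3 : 1 - e + z ≠ 0 := by linarith
  have hA : (om e z 2)ᵀ * AA = !![√(1 - e); 0; √z] := by
    ext i j
    fin_cases i <;> fin_cases j <;> simp [om, AA, Matrix.mul_apply, Fin.sum_univ_succ]
  have hB : (om e z 2)ᵀ * BB = !![√(1 - e); √(1 - e); 0] := by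
    ext i j
    fin_cases i <;> fin_cases j <;> simp [om, BB, Matrix.mul_apply, Fin.sum_univ_succ]
  rw [sketchSolve, hA, hB, pinv_col (by rw [h1, h2]; exact h3), h1, h2]
  simp [Matrix.mul_apply, Fin.sum_univ_succ]
  field_simp
  linear_combination h1

/-- For every constant failure probability `de` in `(0,1)` (in particular `de = 1/100`), every
constant `C` and every `c₀ > 0`, there are a full-rank least-squares problem and an oblivious
subspace injection of dimension `d = rank A`, injectivity `1 - ε` and failure probability `de`,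
for which the relative-error bound with factor `1 + C ε` fails with probability `> 1 - c₀`. -/
theorem result (de : ℝ) (hde0 : 0 < de) (hde1 : de < 1) (C c₀ : ℝ) (hc₀ : 0 < c₀) :
    ∃ (n d p k : ℕ) (ε : ℝ) (A : Matrix (Fin n) (Fin d) ℝ) (B : Matrix (Fin n) (Fin p) ℝ)
      (S : Type) (_ : MeasurableSpace S) (P : Measure S) (Om : S → Matrix (Fin n) (Fin k) ℝ),
      0 < n ∧ 0 < d ∧ 0 < p ∧ 0 < k ∧ 0 < ε ∧ ε < 1 ∧ A.rank = d ∧ 0 < opt A B ∧
      IsProbabilityMeasure P ∧ IsOSI P Om d (1 - ε) de ∧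
      1 - c₀ < P.real {s | (1 + C * ε) * opt A B < frob (A * sketchSolve (Om s) A B - B)} := by
  set e : ℝ := de ^ 2 / (4 * (|C| + 1)) with he
  have hC : 0 < |C| + 1 := by positivity
  have he0 : 0 < e := by positivity
  have hCe : |C| * e ≤ de ^ 2 / 4 := by
    rw [he, mul_div_assoc', div_le_div_iff₀ (by positivity) (by norm_num)]
    nlinarith [sq_nonneg de, abs_nonneg C]
  have he1 : e < 1 := by
    rw [he, div_lt_one (by positivity)]
    nlinarith [abs_nonneg C]
  set z : ℝ := 1 / (1 - de) - (1 - e) with hzdef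
  have hd' : 0 < 1 - de := by linarith
  have hzd : (1 - de) * (1 - e + z) = 1 := by
    rw [hzdef]; field_simp; ring
  have hz' : (1 - de) * z = de + e - e * de := by linear_combination hzd
  have hz : 0 < z := by
    have : 0 < (1 - de) * z := by rw [hz']; nlinarith
    exact (mul_pos_iff_of_pos_left hd').mp this
  have hfrac : z / (1 - e + z) = (1 - de) * z := by
    have h3 : 1 - e + z ≠ 0 := by linarith
    rw [div_eq_iff h3]; linear_combination -z * hzd
  have hq : de ≤ (1 - de) * z := by rw [hz']; nlinarith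
  have hup : (1 + C * e) ≤ 1 + de ^ 2 / 4 := by
    have : C * e ≤ |C| * e := mul_le_mul_of_nonneg_right (le_abs_self C) he0.le
    linarith
  have hfail : ∀ s, (1 + C * e) * opt AA BB < frob (AA * sketchSolve (om e z s) AA BB - BB) := by
    intro s
    rw [opt_AB, mul_one, frob_AB]
    refine lt_of_le_of_lt hup ?_
    refine Real.lt_sqrt_of_sq_lt ?_
    have hde2 : de ^ 2 < 1 := by nlinarith
    have hde4 : (1 + de ^ 2 / 4) ^ 2 < 1 + de ^ 2 := by nlinarith [sq_nonneg de, pow_pos hde0 2]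
    have hsq : de ^ 2 ≤ ((1 - de) * z) ^ 2 := by nlinarith
    fin_cases s
    · simp only [Fin.zero_eta, solve0]
      simp
      nlinarith
    · simp only [Fin.mk_one, solve1 he1 hz, hfrac]
      nlinarith
    · simp only [Fin.reduceFinMk, solve2 he1 hz, hfrac]
      nlinarith
  refine ⟨2, 1, 1, 3, e, AA, BB, Fin 3, inferInstance, mu de, om e z, by norm_num, by norm_num,
    by norm_num, by norm_num, he0, he1, AA_rank, by rw [opt_AB]; norm_num, mu_prob hde0 hde1,
    om_osi he1 hz hde0 hde1 hzd 1, ?_⟩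
  have := mu_prob hde0 hde1
  rw [show {s | (1 + C * e) * opt AA BB < frob (AA * sketchSolve (om e z s) AA BB - BB)}
    = Set.univ from Set.eq_univ_of_forall hfail]
  simp
  linarith

end Pool.Agent.Results.MP_4d58d7_an.SketchSolve
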